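import Pool.Agent.Lib.MP_07117b_nt_h11.LocRoots
import Pool.Agent.Lib.MP_07117b_nt_h62.Roots4

/-!
Row L3: local data at 3 for the hypothesis `E_j`.
-/

namespace Pool.Agent.Arb

section
variable {Ω : Type*} [NormedField Ω] [IsAlgClosed Ω] [CharZero Ω] {c : Cst Ω}
  {B : Subgroup (Ω ≃+* Ω)}

omit [IsAlgClosed Ω] [CharZero Ω] in
theorem Loc3.norm_lt_of_add63 (h : Loc3 c B) {x y : Ω} (r : ℝ) (hx : ‖x‖ < r) (hy : ‖y‖ < r) :
    ‖x + y‖ < r :=
  lt_of_le_of_lt (h.ultra x y) (max_lt hx hy)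

omit [IsAlgClosed Ω] [CharZero Ω] in
theorem Loc3.norm_eq_one63 (h : Loc3 c B) {x y : Ω} (hx : ‖x‖ = 1) (hxy : ‖y - x‖ < 1) :
    ‖y‖ = 1 := by
  apply le_antisymm
  · have := h.ultra (y - x) x
    rw [sub_add_cancel] at this
    exact this.trans (max_le hxy.le hx.le)
  · have h2 := h.ultra (x - y) y
    rw [sub_add_cancel, hx, norm_sub_rev] at h2
    rcases le_max_iff.1 h2 with h3 | h3
    · exact absurd hxy (not_lt.2 h3)
    · exact h3

omit [IsAlgClosed Ω] [CharZero Ω] in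
theorem Cst.prim63 (c : Cst Ω) : IsPrimitiveRoot c.ζ 13 :=
  (orderOf_eq_prime (hp := ⟨by norm_num⟩) c.hζ c.hζ1) ▸ IsPrimitiveRoot.orderOf c.ζ

/-- there is a `G`-type root over each `H`-type node -/
theorem Loc3.exists_G63 (h : Loc3 c B) {u : Ω} (hu : HT B u) : ∃ z : Ω, z ^ 13 = u ∧ GT B z := by
  obtain ⟨z0, hz0, hn, -, hG, -⟩ := h.roots13 hu
  refine ⟨c.ζ * z0, by rw [mul_pow, c.hζ, one_mul, hz0], hG _ (by rw [mul_pow, c.hζ, one_mul, hz0]) ?_⟩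
  intro he
  have hne : z0 ≠ 0 := by
    rintro rfl
    simp at hn
  exact c.hζ1 (mul_right_cancel₀ hne (by rw [he, one_mul]))

theorem Loc3.exists_H63 (h : Loc3 c B) (j : ℕ) : ∃ u ∈ c.MS j, HT B u := by
  induction j with
  | zero => exact ⟨c.m, rfl, h.norms.2.2.2.2.2.2.2.2.2.2.2.2.1⟩
  | succ j ih =>
    obtain ⟨u, hu, hH⟩ := ih
    obtain ⟨z, hz, hG⟩ := h.exists_G63 hH
    obtain ⟨uO, v, hv, -, -, hf, hd⟩ := h.roots4 hG
    have hP : c.P (v 0) = z := (hv _).2 (Or.inr ⟨0, rfl⟩)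
    refine ⟨v 0, ⟨?_, by rw [hP, hz]; exact hu⟩, hf 0, ?_⟩
    · intro h0
      have : c.P (v 0) = 0 := by rw [Cst.P, h0, div_zero]
      rw [hP] at this
      have h1 := hG.2.1
      rw [this, norm_zero] at h1
      exact zero_ne_one h1
    · have := hd 0
      rw [show ((0 : Fin 3) : ℕ) = 0 from rfl, pow_zero] at this
      rw [this]
      norm_num

omit [IsAlgClosed Ω] [CharZero Ω] in
theorem Loc3.outer63 (h : Loc3 c B) {z uO : Ω} (hz : GT B z) (hO : ‖uO - z‖ < 1) {y : Ω}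
    (hy : y ^ 13 = uO) : ∃ b ∈ B, b y ≠ y := by
  by_contra hcon
  push Not at hcon
  have hu1 : ‖uO‖ = 1 := h.norm_eq_one63 hz.2.1 hO
  have hy1 : ‖y‖ = 1 := by
    have : ‖y‖ ^ 13 = 1 := by rw [← norm_pow, hy, hu1]
    exact (pow_eq_one_iff_of_nonneg (norm_nonneg _) (by norm_num)).1 this
  have hr := h.res y hcon hy1.le
  have e1 : y ^ 27 - y = y * (uO ^ 2 - 1) := by rw [← hy]; ring
  rw [e1, norm_mul, hy1, one_mul] at hr
  have hz2 : ‖z ^ 2 - 1‖ = 1 := by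
    rw [show z ^ 2 - 1 = (z - 1) * (z + 1) by ring, norm_mul, hz.2.2.1, hz.2.2.2, one_mul]
  have hs : ‖uO + z‖ ≤ 1 := (h.ultra _ _).trans (max_le hu1.le hz.2.1.le)
  have hd : ‖z ^ 2 - uO ^ 2‖ < 1 := by
    rw [show z ^ 2 - uO ^ 2 = -((uO - z) * (uO + z)) by ring, norm_neg, norm_mul]
    calc ‖uO - z‖ * ‖uO + z‖ ≤ ‖uO - z‖ * 1 := mul_le_mul_of_nonneg_left hs (norm_nonneg _)
      _ < 1 := by rw [mul_one]; exact hO
  have := h.norm_lt_of_add63 1 hd hr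
  rw [sub_add_sub_cancel, hz2] at this
  exact lt_irrefl _ this

/-- row L3 (uses L1a, L1b, L2 and an induction on `j` producing an `H`-type node of level `j`) -/
theorem Loc3.locE (h : Loc3 c B) (j : ℕ) :
    ∃ zs ∈ c.LS j, ∃ uO : Ω, c.P uO = zs ∧ ∃ b ∈ B,
      (∀ z : Ω, z ^ 13 = zs ^ 13 → b z = z) ∧ (∀ u : Ω, c.P u = zs → b u = u) ∧
      (∃ ρ : ZMod 13, ρ ≠ 0 ∧ ∀ x : Ω, x ^ 13 = uO → b x = c.ζ ^ ρ.val * x) ∧
      (∀ x : Ω, c.P (x ^ 13) = zs → x ^ 13 ≠ uO → b x = x) := by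
  obtain ⟨u, hu, hH⟩ := h.exists_H63 j
  obtain ⟨z, hz, hG⟩ := h.exists_G63 hH
  obtain ⟨uO, v, hv, hO, hfO, hf, hd⟩ := h.roots4 hG
  have hall : ∀ z' : Ω, z' ^ 13 = u → ∀ b ∈ B, b z' = z' := by
    obtain ⟨z0, -, -, hh, -⟩ := h.roots13 hH
    exact hh
  obtain ⟨y, hy⟩ := IsAlgClosed.exists_pow_nat_eq uO (n := 13) (by norm_num)
  obtain ⟨b, hb, hby⟩ := h.outer63 hG hO hy
  have hy0 : y ≠ 0 := by
    rintro rfl
    exact hby (map_zero b)
  have hroot : ∀ x x' : Ω, x' ≠ 0 → x ^ 13 = x' ^ 13 → ∃ k < 13, x = c.ζ ^ k * x' := by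
    intro x x' hx' hxx
    have h1 : (x / x') ^ 13 = 1 := by
      rw [div_pow, hxx, div_self (pow_ne_zero _ hx')]
    obtain ⟨k, hk, hk'⟩ := (c.prim63).eq_pow_of_pow_eq_one h1
    exact ⟨k, hk, by rw [hk', div_mul_cancel₀ _ hx']⟩
  refine ⟨z, by rw [Cst.LS, Set.mem_ofPred_eq, hz]; exact hu, uO, (hv uO).2 (Or.inl rfl), b, hb,
    ?_, ?_, ?_, ?_⟩
  · intro z' hz'
    exact hall z' (hz'.trans hz) b hb
  · intro w hw
    rcases (hv w).1 hw with rfl | ⟨i, rfl⟩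
    · exact hfO b hb
    · exact hf i b hb
  · have h1 : (b y) ^ 13 = y ^ 13 := by rw [← map_pow, hy, hfO b hb]
    obtain ⟨k, hk, hk'⟩ := hroot _ _ hy0 h1
    refine ⟨(k : ZMod 13), ?_, ?_⟩
    · intro h0
      rw [ZMod.natCast_eq_zero_iff] at h0
      have : k = 0 := Nat.eq_zero_of_dvd_of_lt h0 hk
      rw [this, pow_zero, one_mul] at hk'
      exact hby hk'
    · intro x hx
      obtain ⟨l, -, rfl⟩ := hroot x y hy0 (hx.trans hy.symm)
      rw [map_mul, map_pow, h.fζ b hb, hk', ZMod.val_natCast_of_lt hk]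
      ring
  · intro x hx hxO
    rcases (hv _).1 hx with h1 | ⟨i, h1⟩
    · exact absurd h1 hxO
    · have hHi : HT B (v i) := by
        refine ⟨hf i, ?_⟩
        have h2 : ‖1 - c.ω ^ (i : ℕ)‖ < 1 := by
          have n1 := h.norms.2.2.2.2.2.2.2.2.1
          have n2 := h.norms.2.2.2.2.2.2.2.2.2.1
          fin_cases i
          · simp
          · simp only [pow_one]
            by_contra hcon
            nlinarith
          · simp only
            by_contra hcon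
            nlinarith
        have h3 : ‖v i + c.ω ^ (i : ℕ)‖ < 1 := by rw [hd i]; norm_num
        have := h.norm_lt_of_add63 1 h3 h2
        rwa [add_add_sub_cancel] at this
      obtain ⟨z0, -, -, hh, -⟩ := h.roots13 hHi
      exact hh x h1 b hb

end

end Pool.Agent.Arb
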