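import Pool.Agent.Lib.MP_07117b_nt_h34.Act
import Pool.Agent.Lib.MP_07117b_nt_h62.Galois

/-!
MP_07117b_nt, row D3: the upper bound for the degree of one step of the tower at odd levels.
-/

namespace Pool.Agent.Arb

open Cst Polynomial

section algebra
variable {F : Type*} [Field F] (c : Cst F)

theorem om_cube63 : c.ω ^ 3 = 1 := by
  linear_combination (c.ω - 1) * c.hω

theorem om_ne63 : c.ω ≠ 0 := by
  intro h
  have h1 := om_cube63 c
  rw [h] at h1
  norm_num at h1

theorem s0_def63 (w : F) : c.s0 w = -(w + c.a) / (c.a * w + 1) := rfl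

theorem S10_63 (w : F) : c.S (1, 0) w = c.s0 w := by
  unfold Cst.S
  rw [if_neg (by decide), if_pos rfl]

theorem S01_63 (w : F) : c.S (0, 1) w = c.ω * c.s0 (c.ω ^ 2 * w) := by
  unfold Cst.S
  rw [if_neg (by decide), if_neg (by decide), if_pos rfl]

theorem S11_63 (w : F) : c.S (1, 1) w = c.ω ^ 2 * c.s0 (c.ω * w) := by
  unfold Cst.S
  rw [if_neg (by decide), if_neg (by decide), if_neg (by decide)]

/-- numerator of `P` at a good point -/
theorem good_num63 {w : F} (h : c.Good w) : w ≠ 0 ∧ w ^ 3 - 2 * c.a ≠ 0 := by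
  have h1 := h.2.1
  unfold Cst.P at h1
  constructor
  · intro h0
    apply h1
    rw [h0]
    simp
  · intro h0
    apply h1
    rw [h0]
    simp

/-- the condition of `X_eq` at `ω * w` -/
theorem cond_om63 {w : F} (h : c.Good w) : 1 - 2 * c.a * (c.ω * w) ^ 3 ≠ 0 := by
  have h1 := h.1
  rw [mul_pow, om_cube63, one_mul]
  exact h1

/-- the condition of `X_eq` at `ω / w` -/
theorem cond_kap63 {w : F} (h : c.Good w) : 1 - 2 * c.a * (c.ω / w) ^ 3 ≠ 0 := by
  obtain ⟨h1, h2⟩ := good_num63 c h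
  intro h0
  apply h2
  rw [div_pow, om_cube63] at h0
  field_simp at h0
  linear_combination h0

variable [CharZero F]

omit [CharZero F] in
/-- `κ s0 κ = s1` -/
theorem kap_s0_63 {w w' : F} (h : c.Good w) (hw' : w' ≠ 0) (he : c.ω / w' = c.s0 (c.ω / w)) :
    w' = c.S (0, 1) w := by
  obtain ⟨h1, h2⟩ := good_num63 c h
  have h3 := om_ne63 c
  have h4 := cond_kap63 c h
  have h5 : c.a * (c.ω / w) + 1 ≠ 0 := aw_ne h4
  have h6 : 1 - 2 * c.a * (c.ω ^ 2 * w) ^ 3 ≠ 0 := by
    have h7 := h.1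
    rw [mul_pow, ← pow_mul, mul_comm 2 3, pow_mul, om_cube63, one_pow, one_mul]
    exact h7
  have h7 : c.a * (c.ω ^ 2 * w) + 1 ≠ 0 := aw_ne h6
  rw [S01_63, s0_def63]
  rw [s0_def63, eq_div_iff h5] at he
  have h11 : c.ω * (c.a * c.ω + w) = -(c.ω + c.a * w) * w' := by
    field_simp at he
    linear_combination he
  rw [eq_comm, mul_div_assoc', div_eq_iff h7]
  have h12 := om_cube63 c
  linear_combination (-c.ω ^ 2) * h11 + (c.a * c.ω + w') * h12

omit [CharZero F] in
/-- `κτ s0 (κτ)⁻¹ = s2` -/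
theorem om_s0_63 {w w' : F} (he : c.ω * w' = c.s0 (c.ω * w)) :
    w' = c.S (1, 1) w := by
  have h12 := om_cube63 c
  rw [S11_63, ← he]
  linear_combination (-w') * h12

/-- two elements of the orbit of `w` -/
theorem S_ne63 {w : F} (h : c.Good w) : c.S (0, 1) w ≠ c.S (1, 1) w := by
  intro he
  have h1 : c.S ((0, 1) + (0, 1)) w = c.S ((0, 1) + (1, 1)) w := by
    rw [h.S_add, h.S_add, he]
  have h2 : ((0, 1) + (0, 1) : V4) = 0 := by decide
  have h3 : ((0, 1) + (1, 1) : V4) = (1, 0) := by decide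
  rw [h2, h3, S_zero] at h1
  have h4 := h.free (1, 0) h1.symm
  exact absurd h4 (by decide)

/-- a point is determined by the two values of `X` -/
theorem eq_of_X63 {w w' : F} (h : c.Good w) (h' : c.Good w')
    (hX1 : c.X (c.ω / w') = c.X (c.ω / w)) (hX2 : c.X (c.ω * w') = c.X (c.ω * w)) : w' = w := by
  have h1 := (good_num63 c h).1
  have h1' := (good_num63 c h').1
  have h3 := om_ne63 c
  rcases X_eq (cond_kap63 c h) (cond_kap63 c h') hX1.symm with h4 | h4
  · have h5 : c.ω * w = c.ω * w' := by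
      rw [div_eq_div_iff h1' h1] at h4
      exact h4
    exact (mul_left_cancel₀ h3 h5).symm
  · rcases X_eq (cond_om63 c h) (cond_om63 c h') hX2.symm with h5 | h5
    · exact mul_left_cancel₀ h3 h5
    · exact absurd ((kap_s0_63 c h h1' h4).symm.trans (om_s0_63 c h5)) (S_ne63 c h)

omit [CharZero F] in
/-- a root of unity of order dividing `13` is a power of `ζ` -/
theorem root_pow63 {x y : F} (hy : y ≠ 0) (h : x ^ 13 = y ^ 13) :
    ∃ l : Fin 13, x = c.ζ ^ (l : ℕ) * y := by
  have h1 : IsPrimitiveRoot c.ζ 13 := by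
    have : Fact (Nat.Prime 13) := ⟨by norm_num⟩
    have h0 : orderOf c.ζ = 13 := orderOf_eq_prime c.hζ c.hζ1
    exact h0 ▸ IsPrimitiveRoot.orderOf c.ζ
  have h2 : (x / y) ^ 13 = 1 := by
    rw [div_pow, h, div_self (pow_ne_zero _ hy)]
  obtain ⟨i, hi, hi2⟩ := h1.eq_pow_of_pow_eq_one h2
  refine ⟨⟨i, hi⟩, ?_⟩
  show x = c.ζ ^ i * y
  rw [hi2, div_mul_cancel₀ _ hy]

end algebra

section fields
variable {K : Type*} [Field K] [CharZero K] (c0 : Cst K)

/-- row D3: for odd `n` the nodes of level `n` are rational over `K_n` -/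
theorem MS_mem_level {n : ℕ} (hn : Odd n) {v : AlgebraicClosure K}
    (hv : v ∈ (c0.map (algebraMap K (AlgebraicClosure K))).MS n) :
    v ∈ IntermediateField.adjoin K ((c0.map (algebraMap K (AlgebraicClosure K))).NS n) := by
  set c := c0.map (algebraMap K (AlgebraicClosure K)) with hc
  have hodd : ¬ Even n := Nat.not_even_iff_odd.2 hn
  obtain ⟨j, rfl⟩ : ∃ j, n = j + 1 := ⟨n - 1, by have := hn.pos; omega⟩
  refine mem_of_fixed _ v fun g hg => ?_
  have hgood : c.Good v := MS_good hv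
  have hgv : g v ∈ c.MS (j + 1) := g_MS c0 g (j + 1) hv
  have hgood' : c.Good (g v) := MS_good hgv
  have hm1 : c.X (c.ω / v) ∈ c.NS (j + 1) := by
    refine ⟨v, Or.inl hv, ?_⟩
    unfold Cst.kap
    rw [if_neg hodd]
  have hm2 : c.X (c.ω * v) ∈ c.NS (j + 1) := by
    refine ⟨v⁻¹, Or.inr (by rw [inv_inv]; exact hv), ?_⟩
    unfold Cst.kap
    rw [if_neg hodd, div_inv_eq_mul]
  have hga : g.toRingEquiv c.a = c.a := g.commutes c0.a
  have hgω : g c.ω = c.ω := g.commutes c0.ω
  have e1 := hg _ (IntermediateField.subset_adjoin K _ hm1)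
  have e2 := hg _ (IntermediateField.subset_adjoin K _ hm2)
  have e1' : g (c.X (c.ω / v)) = c.X (g (c.ω / v)) := b_X g.toRingEquiv hga _
  have e2' : g (c.X (c.ω * v)) = c.X (g (c.ω * v)) := b_X g.toRingEquiv hga _
  rw [e1', map_div₀, hgω] at e1
  rw [e2', map_mul, hgω] at e2
  exact eq_of_X63 c hgood hgood' e1 e2

theorem NS_finite63 {F : Type*} [Field F] [CharZero F] [IsAlgClosed F] (c : Cst F) (n : ℕ) :
    (c.NS n).Finite := by
  have h1 : (c.MS n).Finite := Set.toFinite _
  have h2 : (c.SS n).Finite :=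
    (h1.union (h1.preimage inv_injective.injOn)).subset fun v hv => hv
  refine (h2.image fun v => c.X (c.kap n v)).subset ?_
  rintro x ⟨v, hv, rfl⟩
  exact ⟨v, hv, rfl⟩

/-- row D3: upper bound for odd `n` -/
theorem deg_odd {n : ℕ} (hn : Odd n) :
    Module.finrank K
      (IntermediateField.adjoin K ((c0.map (algebraMap K (AlgebraicClosure K))).NS (n + 1))) ≤
    Module.finrank K
      (IntermediateField.adjoin K ((c0.map (algebraMap K (AlgebraicClosure K))).NS n)) *
        (13 * 2 ^ 13) ^ (52 ^ n) := by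
  classical
  set c := c0.map (algebraMap K (AlgebraicClosure K)) with hc
  set E := IntermediateField.adjoin K (c.NS n) with hE
  have hfd : FiniteDimensional K E := by
    have h1 : (c.NS n).Finite := NS_finite63 c n
    have := h1.to_subtype
    exact IntermediateField.finiteDimensional_adjoin fun x _ =>
      (AlgebraicClosure.isAlgebraic K).isAlgebraic x |>.isIntegral
  have heven : Even (n + 1) := Odd.add_one hn
  have hfin : (c.MS n).Finite := Set.toFinite _
  choose z hz using fun u : AlgebraicClosure K =>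
    IsAlgClosed.exists_pow_nat_eq u (n := 13) (by norm_num)
  choose sq hsq using fun u : AlgebraicClosure K =>
    IsAlgClosed.exists_pow_nat_eq u (n := 2) (by norm_num)
  obtain ⟨E', h1, h2, h3, h4⟩ := up_bound hfin.toFinset E z
    (by
      intro u hu
      rw [hz]
      exact MS_mem_level c0 hn (hfin.mem_toFinset.1 hu))
    (fun u l => sq (Cst.D (c.ζ ^ (l : ℕ) * z u)))
    (by
      intro u _ l E' _ hzu
      rw [hsq]
      have h5 : c.ζ ∈ E' := E'.algebraMap_mem c0.ζ
      have h6 : c.ζ ^ (l : ℕ) * z u ∈ E' := E'.mul_mem (pow_mem h5 _) hzu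
      exact E'.add_mem (E'.sub_mem (pow_mem h6 2) h6) E'.one_mem)
  have hX : ∀ w ∈ c.MS (n + 1), c.X w ∈ E' := by
    intro w hw
    have hu : c.P w ^ 13 ∈ c.MS n := hw.2
    obtain ⟨h5, h6⟩ := h2 _ (hfin.mem_toFinset.2 hu)
    have hzne : z (c.P w ^ 13) ≠ 0 := by
      intro h0
      have h7 := hz (c.P w ^ 13)
      rw [h0] at h7
      have h8 : c.P w ^ 13 = 0 := by rw [← h7]; norm_num
      exact (MS_ne hu).1 h8
    obtain ⟨l, hl⟩ := root_pow63 c hzne (hz (c.P w ^ 13)).symm
    have h7 : c.ζ ∈ E' := E'.algebraMap_mem c0.ζ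
    have h8 : c.P w ∈ E' := by
      rw [hl]
      exact E'.mul_mem (pow_mem h7 _) h5
    have h9 := h6 l
    have h10 := hsq (Cst.D (c.ζ ^ (l : ℕ) * z (c.P w ^ 13)))
    beta_reduce at h9
    rw [← hl] at h9 h10
    have h11 := X_sq (c := c) hw.1
    rw [← h10] at h11
    rcases sq_eq_sq_iff_eq_or_eq_neg.1 h11 with h12 | h12
    · have h13 : c.X w = sq (Cst.D (c.P w)) + c.P w - 1 := by linear_combination h12
      rw [h13]
      exact E'.sub_mem (E'.add_mem h9 h8) E'.one_mem
    · have h13 : c.X w = -sq (Cst.D (c.P w)) + c.P w - 1 := by linear_combination h12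
      rw [h13]
      exact E'.sub_mem (E'.add_mem (E'.neg_mem h9) h8) E'.one_mem
  have hle : IntermediateField.adjoin K (c.NS (n + 1)) ≤ E' := by
    rw [IntermediateField.adjoin_le_iff]
    rintro x ⟨v, hv, rfl⟩
    have h5 : c.kap (n + 1) v = v := by
      unfold Cst.kap
      rw [if_pos heven]
    rw [h5]
    rcases hv with hv | hv
    · exact hX v hv
    · have hv0 : v⁻¹ ≠ 0 := (MS_ne hv).1
      have h6 := X_inv (c := c) hv0
      rw [inv_inv] at h6
      rw [h6]
      exact E'.inv_mem (hX _ hv)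
  have hcard : hfin.toFinset.card = 52 ^ n := by
    rw [← card_MS c n, Nat.card_coe_set_eq, Set.ncard_eq_toFinset_card _ hfin]
  rw [hcard] at h4
  exact (finrank_le_of_le hle).trans h4

end fields

end Pool.Agent.Arb
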